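import Pool.Agent.U527.Et.Fin
import Pool.Agent.U587.ET.Amp

set_option autoImplicit false

/-!
# Bilinear averages along squares and other polynomials: all times of a flow off a set of dimension less than one

Let `S` be a measurable measure preserving flow on a separable probability space `(X, μ)`. The averages of the problem for
the map `T = S_a` are those of `f(T^(n^2) x) g(T^(-n^2) x)`, `1 ≤ n ≤ N`. More generally let `P` be an integer polynomial of
degree in `[1, d]` with positive leading coefficient, `b, c` integers, and consider `f(T^(b P(n)) x) g(T^(c P(n)) x)`.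

There is ONE set `D` of real numbers, of Hausdorff dimension at most `1 - 1 / (d 2^(4 d + 6))` (for `d = 2`: `1 - 2^(-15)`),
such that for ALL `a ≠ 0` with `|a|` outside of `D`, all these `P, b, c` and ALL `f, g` in `L^∞`:

1. the difference of the averages and of their continuous counterpart (integrals over `0 ≤ v ≤ N` along `a P(v)`) tends to
   zero in `L²(μ)`;
2. by Bourgain's theorem for one function along `P` and his double recurrence theorem (`P(n) = n`, both published, for all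
   maps), for almost every `x` the averages along `P` converge, and their limit is the limit of the averages of
   `f(T^(b n) x) g(T^(c n) x)`.

With `P(n) = n^2`, `b = 1`, `c = -1` this is the assertion of the problem for `T = S_a`, all functions at once.

The proof is the comparison of `Pool.Agent.U527.Et.main` for the flows `S(b t)` and `S(c t)`, for `P` and for `P(n) = n`.
-/

namespace Pool.Agent.Results.MP_70d78b_an.TimesOfFlows

open MeasureTheory Filter Finset
open scoped ENNReal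

universe u

/-- a measurable measure preserving flow -/
structure IsFlow {X : Type u} [MeasurableSpace X] (μ : Measure X) (τ : ℝ → X → X) : Prop where
  meas : Measurable (fun p : ℝ × X => τ p.1 p.2)
  zero : ∀ x, τ 0 x = x
  add : ∀ s t x, τ (s + t) x = τ s (τ t x)
  mp : ∀ t, MeasurePreserving (τ t) μ μ

/-- measurable and essentially bounded -/
def Linf {X : Type u} [MeasurableSpace X] (μ : Measure X) (f : X → ℂ) : Prop :=
  AEStronglyMeasurable f μ ∧ ∃ C : ℝ, ∀ᵐ x ∂μ, ‖f x‖ ≤ C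

/-- integer powers of an invertible map -/
def pw {X : Type u} [MeasurableSpace X] (T : X ≃ᵐ X) (k : ℤ) (x : X) : X := ((T.toEquiv : Equiv.Perm X) ^ k) x

/-- the pointwise ergodic theorem along `P` for one function in `L^∞` (Bourgain's theorem) -/
def OneFunction (P : Polynomial ℤ) : Prop := ∀ (X : Type u) [MeasurableSpace X] (μ : Measure X)
  [IsProbabilityMeasure μ] (T : X ≃ᵐ X), MeasurePreserving T μ μ → ∀ f : X → ℂ, Linf μ f → ∀ᵐ x ∂μ, ∃ L : ℂ,
    Tendsto (fun N : ℕ => (1 / (N : ℂ)) * ∑ n ∈ Icc 1 N, f (pw T (P.eval (n : ℤ)) x)) atTop (nhds L)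

/-- Bourgain's double recurrence theorem: the averages of `f(T^(b n) x) g(T^(c n) x)` converge almost everywhere -/
def DoubleRecurrence : Prop := ∀ (X : Type u) [MeasurableSpace X] (μ : Measure X)
  [IsProbabilityMeasure μ] (T : X ≃ᵐ X), MeasurePreserving T μ μ → ∀ (b c : ℤ) (f g : X → ℂ), Linf μ f → Linf μ g →
    ∀ᵐ x ∂μ, ∃ L : ℂ, Tendsto (fun N : ℕ => (1 / (N : ℂ)) * ∑ n ∈ Icc 1 N,
      f (pw T (b * (n : ℤ)) x) * g (pw T (c * (n : ℤ)) x)) atTop (nhds L)

/-- degree in `[1, d]` and positive leading coefficient -/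
def Pol (d : ℕ) (P : Polynomial ℤ) : Prop := 0 < P.natDegree ∧ P.natDegree ≤ d ∧ 0 < P.leadingCoeff

/-- a dimension less than one (for `d ≥ 1`) -/
noncomputable def bnd (d : ℕ) : ℝ≥0∞ := ENNReal.ofReal (1 - 1 / (d * 2 ^ (4 * d + 6) : ℝ))

/-- the averages of `f(T^(b P(n)) x) g(T^(c P(n)) x)` over `1 ≤ n ≤ N`, for `T = S_a` -/
noncomputable def davg {X : Type u} (S : ℝ → X → X) (a : ℝ) (P : Polynomial ℤ) (b c : ℤ) (f g : X → ℂ) (N : ℕ)
    (x : X) : ℂ :=
  (1 / (N : ℂ)) * ∑ n ∈ Icc 1 N, f (S (a * ((b * P.eval (n : ℤ) : ℤ) : ℝ)) x) *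
    g (S (a * ((c * P.eval (n : ℤ) : ℤ) : ℝ)) x)

/-- the averages of `f(S_(a b P(v)) x) g(S_(a c P(v)) x)` over `0 ≤ v ≤ N` -/
noncomputable def cavg {X : Type u} (S : ℝ → X → X) (a : ℝ) (P : Polynomial ℤ) (b c : ℤ) (f g : X → ℂ) (N : ℕ)
    (x : X) : ℂ :=
  (1 / (N : ℂ)) * ∫ v in (0 : ℝ)..N, f (S (a * (b * (P.map (Int.castRingHom ℝ)).eval v)) x) *
    g (S (a * (c * (P.map (Int.castRingHom ℝ)).eval v)) x)

/-- the speeds -/
def spd {X : Type u} (S : ℝ → X → X) (b c : ℤ) (j : Fin 2) (t : ℝ) : X → X := S ((((![b, c] : Fin 2 → ℤ) j : ℤ) : ℝ) * t)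

lemma flow_of {X : Type u} [MeasurableSpace X] {μ : Measure X} {τ : ℝ → X → X} (h : IsFlow μ τ) :
    Pool.Agent.Y957.MC.IsFlow μ τ := ⟨h.meas, h.zero, h.add, h.mp⟩

lemma of_flow {X : Type u} [MeasurableSpace X] {μ : Measure X} {τ : ℝ → X → X}
    (h : Pool.Agent.Y957.MC.IsFlow μ τ) : IsFlow μ τ := ⟨h.meas, h.zero, h.add, h.mp⟩

lemma bnd_eq (d : ℕ) : Pool.Agent.U527.Et.dm d = bnd d := by
  unfold Pool.Agent.U527.Et.dm bnd
  congr 2
  push_cast
  rfl

/-- a time map -/
def tm {X : Type u} [MeasurableSpace X] {μ : Measure X} {S : ℝ → X → X} (hS : IsFlow μ S) (a : ℝ) : X ≃ᵐ X :=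
  { toFun := S a
    invFun := S (-a)
    left_inv := fun x => by rw [← hS.add, neg_add_cancel, hS.zero]
    right_inv := fun x => by rw [← hS.add, add_neg_cancel, hS.zero]
    measurable_toFun := (hS.mp a).measurable
    measurable_invFun := (hS.mp (-a)).measurable }

lemma pw_nat {X : Type u} [MeasurableSpace X] (T : X ≃ᵐ X) (n : ℕ) (x : X) : pw T (n : ℤ) x = T^[n] x := by
  unfold pw
  rw [zpow_natCast, ← Equiv.Perm.iterate_eq_pow]
  rfl

lemma pw_tm {X : Type u} [MeasurableSpace X] {μ : Measure X} {S : ℝ → X → X} (hS : IsFlow μ S) (a : ℝ) (k : ℤ)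
    (x : X) : pw (tm hS a) k x = S (a * k) x := by
  have h1 : ∀ (n : ℕ) (y : X), ((((tm hS a).toEquiv : Equiv.Perm X) ^ n : Equiv.Perm X)) y = S (a * n) y := by
    intro n y
    rw [← Equiv.Perm.iterate_eq_pow]
    exact Pool.Agent.U587.ET.iter_flow hS.zero hS.add a n y
  unfold pw
  cases k with
  | ofNat n =>
    have := h1 n x
    simpa using this
  | negSucc n =>
    rw [zpow_negSucc, Equiv.Perm.inv_def, Equiv.symm_apply_eq, h1, ← hS.add]
    have : a * ((n + 1 : ℕ) : ℝ) + a * ((Int.negSucc n : ℤ) : ℝ) = 0 := by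
      rw [Int.cast_negSucc]
      push_cast
      ring
    rw [this, hS.zero]

lemma eval_real (P : Polynomial ℤ) (n : ℕ) : (P.map (Int.castRingHom ℝ)).eval (n : ℝ) =
    ((P.eval (n : ℤ) : ℤ) : ℝ) := by
  have h := Polynomial.eval_intCast_map (Int.castRingHom ℝ) P (n : ℤ)
  rw [Int.cast_natCast] at h
  exact h

lemma spd_flow {X : Type u} [MeasurableSpace X] {μ : Measure X} {S : ℝ → X → X} (hS : IsFlow μ S) (b c : ℤ)
    (j : Fin 2) : Pool.Agent.Y957.MC.IsFlow μ (spd S b c j) := Pool.Agent.Y256.MC.isFlow_mul (flow_of hS) _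

lemma prod2 {X : Type u} (S : ℝ → X → X) (b c : ℤ) (f g : X → ℂ) (x : X) (v : ℝ) :
    ∏ j : Fin 2, (![f, g] : Fin 2 → X → ℂ) j (spd S b c j v x) = f (S (b * v) x) * g (S (c * v) x) := by
  rw [Fin.prod_univ_two]
  rfl

lemma linf2 {X : Type u} [MeasurableSpace X] {μ : Measure X} {f g : X → ℂ} (hf : Linf μ f) (hg : Linf μ g)
    (j : Fin 2) : Linf μ ((![f, g] : Fin 2 → X → ℂ) j) := by
  fin_cases j
  · exact hf
  · exact hg

lemma real_pol {P : Polynomial ℤ} {d : ℕ} (hP : Pol d P) : (P.map (Int.castRingHom ℝ)).natDegree = P.natDegree ∧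
    0 < (P.map (Int.castRingHom ℝ)).leadingCoeff := by
  refine ⟨Polynomial.natDegree_map_eq_of_injective Int.cast_injective P, ?_⟩
  rw [Polynomial.leadingCoeff_map_of_injective Int.cast_injective]
  have : (0 : ℝ) < ((P.leadingCoeff : ℤ) : ℝ) := by exact_mod_cast hP.2.2
  exact this

lemma re_lim {u : ℕ → ℝ} {L : ℂ} (h : Tendsto (fun N : ℕ => (1 / (N : ℂ)) * ∑ n ∈ Icc 1 N, ((u n : ℝ) : ℂ)) atTop
    (nhds L)) : Tendsto (fun N : ℕ => (1 / (N : ℝ)) * ∑ n ∈ Icc 1 N, u n) atTop (nhds L.re) := by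
  refine ((Complex.continuous_re.tendsto L).comp h).congr fun N => ?_
  simp only [Function.comp]
  rw [show (1 / (N : ℂ)) * ∑ n ∈ Icc 1 N, ((u n : ℝ) : ℂ) = (((1 / (N : ℝ)) * ∑ n ∈ Icc 1 N, u n : ℝ) : ℂ) by
    push_cast; rfl, Complex.ofReal_re]

lemma linf_real {X : Type u} [MeasurableSpace X] {μ : Measure X} {k : X → ℝ} (hk : Measurable k)
    (hb : ∃ C : ℝ, ∀ x, |k x| ≤ C) : Linf μ (fun x => ((k x : ℝ) : ℂ)) := by
  obtain ⟨C, hC⟩ := hb
  exact ⟨(Complex.measurable_ofReal.comp hk).aestronglyMeasurable, C,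
    ae_of_all _ fun x => by rw [Complex.norm_real]; exact hC x⟩

/-- the one function theorem at all times -/
lemma sg_of_one {X : Type u} [MeasurableSpace X] {μ : Measure X} [IsProbabilityMeasure μ] {S : ℝ → X → X}
    (hS : IsFlow μ S) {P : Polynomial ℤ} (h1 : OneFunction.{u} P) (a : ℝ) (b c : ℤ) (j : Fin 2) :
    Pool.Agent.U587.DX.Sg μ (spd S b c j) (P.map (Int.castRingHom ℝ)) a := by
  intro k hk hkb
  have hK := linf_real (μ := μ) hk hkb
  filter_upwards [h1 X μ (tm hS ((((![b, c] : Fin 2 → ℤ) j : ℤ) : ℝ) * a)) (hS.mp _) _ hK] with x hx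
  obtain ⟨L, hL⟩ := hx
  refine ⟨L.re, re_lim (hL.congr fun N => ?_)⟩
  congr 1
  refine sum_congr rfl fun n _ => ?_
  rw [pw_tm, eval_real, mul_assoc]
  rfl

/-- the one function theorem along the integers, from double recurrence -/
lemma one_X (h : DoubleRecurrence.{u}) : OneFunction.{u} Polynomial.X := by
  intro X _ μ _ T hT f hf
  have h1 : Linf μ (fun _ => (1 : ℂ)) := ⟨aestronglyMeasurable_const, 1, ae_of_all _ fun _ => by simp⟩
  filter_upwards [h X μ T hT 1 1 f (fun _ => 1) hf h1] with x hx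
  obtain ⟨L, hL⟩ := hx
  refine ⟨L, hL.congr fun N => ?_⟩
  congr 1
  refine sum_congr rfl fun n _ => ?_
  rw [Polynomial.eval_X, one_mul, mul_one]

lemma countable_intPoly : Countable (Polynomial ℤ) := by
  have h : Function.Injective (fun p : Polynomial ℤ => (List.ofFn fun i : Fin (p.natDegree + 1) => p.coeff i)) := by
    intro p q hpq
    simp only at hpq
    have h1 := congrArg List.length hpq
    simp only [List.length_ofFn] at h1
    ext n
    by_cases hn : n < p.natDegree + 1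
    · have h2 : (List.ofFn fun i : Fin (p.natDegree + 1) => p.coeff i)[n]? =
        (List.ofFn fun i : Fin (q.natDegree + 1) => q.coeff i)[n]? := by rw [hpq]
      have hn' : n < q.natDegree + 1 := by omega
      rw [List.getElem?_eq_getElem (by simpa using hn), List.getElem?_eq_getElem (by simpa using hn')] at h2
      simpa only [Option.some.injEq, List.getElem_ofFn] using h2
    · rw [Polynomial.coeff_eq_zero_of_natDegree_lt (by omega), Polynomial.coeff_eq_zero_of_natDegree_lt (by omega)]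
  exact h.countable

lemma pol_X {d : ℕ} (hd : 0 < d) : Pol d Polynomial.X :=
  ⟨by rw [Polynomial.natDegree_X]; norm_num, by rw [Polynomial.natDegree_X]; exact hd, by
    rw [Polynomial.leadingCoeff_X]; norm_num⟩

lemma davg_eq {X : Type u} (S : ℝ → X → X) (a : ℝ) (P : Polynomial ℤ) (b c : ℤ) (f g : X → ℂ) (N : ℕ) (x : X) :
    davg S a P b c f g N x = Pool.Agent.U527.Et.di (P.map (Int.castRingHom ℝ))
      (fun v => ∏ j, (![f, g] : Fin 2 → X → ℂ) j (spd S b c j v x)) a N := by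
  unfold davg Pool.Agent.U527.Et.di
  congr 1
  refine sum_congr rfl fun n _ => ?_
  beta_reduce
  rw [prod2, eval_real]
  have e1 : ∀ b : ℤ, a * ((b * P.eval (n : ℤ) : ℤ) : ℝ) = b * (a * ((P.eval (n : ℤ) : ℤ) : ℝ)) := fun b => by
    push_cast
    ring
  rw [e1, e1]

lemma cavg_eq {X : Type u} (S : ℝ → X → X) (a : ℝ) (P : Polynomial ℤ) (b c : ℤ) (f g : X → ℂ) (N : ℕ) (x : X) :
    cavg S a P b c f g N x = Pool.Agent.U527.Et.cp (P.map (Int.castRingHom ℝ))
      (fun v => ∏ j, (![f, g] : Fin 2 → X → ℂ) j (spd S b c j v x)) a N := by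
  unfold cavg Pool.Agent.U527.Et.cp
  congr 1
  refine intervalIntegral.integral_congr fun v _ => ?_
  simp only
  rw [prod2, mul_left_comm a, mul_left_comm a]

lemma davg_neg {X : Type u} (S : ℝ → X → X) (a : ℝ) (P : Polynomial ℤ) (b c : ℤ) (f g : X → ℂ) (N : ℕ) (x : X) :
    davg S a P b c f g N x = davg S (-a) P (-b) (-c) f g N x := by
  unfold davg
  congr 1
  refine sum_congr rfl fun n _ => ?_
  have e1 : ∀ b : ℤ, a * ((b * P.eval (n : ℤ) : ℤ) : ℝ) = (-a) * ((-b * P.eval (n : ℤ) : ℤ) : ℝ) := fun b => by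
    push_cast
    ring
  rw [e1, e1]

lemma cavg_neg {X : Type u} (S : ℝ → X → X) (a : ℝ) (P : Polynomial ℤ) (b c : ℤ) (f g : X → ℂ) (N : ℕ) (x : X) :
    cavg S a P b c f g N x = cavg S (-a) P (-b) (-c) f g N x := by
  unfold cavg
  congr 1
  refine intervalIntegral.integral_congr fun v _ => ?_
  have e1 : ∀ b : ℤ, a * (b * (P.map (Int.castRingHom ℝ)).eval v) =
      (-a) * (((-b : ℤ) : ℝ) * (P.map (Int.castRingHom ℝ)).eval v) := fun b => by
    push_cast
    ring
  beta_reduce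
  rw [e1 b, e1 c]

/-- positive times -/
lemma pos_times {X : Type u} [MeasurableSpace X] (μ : Measure X) [IsProbabilityMeasure μ] [IsSeparable μ]
    {S : ℝ → X → X} (hS : IsFlow μ S) (d : ℕ) :
    ∃ D : Set ℝ, dimH D ≤ bnd d ∧ ∀ a : ℝ, 0 < a → a ∉ D → ∀ P, Pol d P → ∀ (b c : ℤ) (f g : X → ℂ),
      Linf μ f → Linf μ g →
        Tendsto (fun N : ℕ => ∫ x, ‖davg S a P b c f g N x - cavg S a P b c f g N x‖ ^ 2 ∂μ) atTop (nhds 0) ∧
        (OneFunction.{u} P → DoubleRecurrence.{u} → ∀ᵐ x ∂μ, ∃ L : ℂ,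
          Tendsto (fun N : ℕ => davg S a P b c f g N x) atTop (nhds L) ∧
          Tendsto (fun N : ℕ => davg S a Polynomial.X b c f g N x) atTop (nhds L)) := by
  have := countable_intPoly
  have hex : ∀ q : {P : Polynomial ℤ // Pol d P} × ℤ × ℤ, ∃ D : Set ℝ, dimH D ≤ bnd d ∧ ∀ a : ℝ, 0 < a → a ∉ D →
      ∀ f g : X → ℂ, Linf μ f → Linf μ g →
        Tendsto (fun N : ℕ => ∫ x, ‖davg S a q.1.1 q.2.1 q.2.2 f g N x - cavg S a q.1.1 q.2.1 q.2.2 f g N x‖ ^ 2 ∂μ)
          atTop (nhds 0) ∧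
        (OneFunction.{u} q.1.1 → ∀ᵐ x ∂μ, ∀ L : ℂ,
          Tendsto (fun N : ℕ => davg S a q.1.1 q.2.1 q.2.2 f g N x) atTop (nhds L) ↔
          Tendsto (fun V : ℝ => Pool.Agent.U527.Et.ci
            (fun v => ∏ j, (![f, g] : Fin 2 → X → ℂ) j (spd S q.2.1 q.2.2 j v x)) V) atTop (nhds L)) := by
    rintro ⟨⟨P, hP⟩, b, c⟩
    obtain ⟨hdeg, hlead⟩ := real_pol hP
    obtain ⟨D, hD, hDa⟩ := Pool.Agent.U527.Et.main (μ := μ) (fun j => spd_flow hS b c j) (P.map (Int.castRingHom ℝ))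
      (by rw [hdeg]; exact hP.1) hlead
    refine ⟨D, ?_, fun a ha0 haD f g hf hg => ?_⟩
    · rw [← bnd_eq]
      rw [hdeg] at hD
      exact hD.trans (Pool.Agent.U527.Et.dm_mono hP.2.1 hP.1)
    obtain ⟨g1, g2⟩ := hDa a ha0 haD (![f, g]) (fun j => (linf2 hf hg j).1) (fun j => (linf2 hf hg j).2)
    constructor
    · refine g1.congr fun N => ?_
      refine integral_congr_ae (ae_of_all _ fun x => ?_)
      simp only
      rw [Pool.Agent.U527.Et.dd_eq, davg_eq, cavg_eq]
    · intro hone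
      filter_upwards [g2 fun j => sg_of_one hS hone a b c j] with x hx L
      rw [← hx L]
      simp only [davg_eq]
  choose D hD hDa using hex
  refine ⟨⋃ q, D q, ?_, fun a ha0 haD P hP b c f g hf hg => ?_⟩
  · rw [dimH_iUnion]
    exact iSup_le hD
  rw [Set.mem_iUnion, not_exists] at haD
  obtain ⟨g1, g2⟩ := hDa ⟨⟨P, hP⟩, b, c⟩ a ha0 (haD _) f g hf hg
  refine ⟨g1, fun hone hdr => ?_⟩
  have hd : 0 < d := hP.1.trans_le hP.2.1
  obtain ⟨-, g3⟩ := hDa ⟨⟨Polynomial.X, pol_X hd⟩, b, c⟩ a ha0 (haD _) f g hf hg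
  filter_upwards [g2 hone, g3 (one_X hdr), hdr X μ (tm hS a) (hS.mp a) b c f g hf hg] with x x1 x2 x3
  obtain ⟨L, hL⟩ := x3
  have h5 : Tendsto (fun N : ℕ => davg S a Polynomial.X b c f g N x) atTop (nhds L) := by
    refine hL.congr fun N => ?_
    unfold davg
    congr 1
    refine sum_congr rfl fun n _ => ?_
    rw [pw_tm, pw_tm, Polynomial.eval_X]
  exact ⟨L, (x1 L).2 ((x2 L).1 h5), h5⟩

/-- **Bilinear averages along polynomials at all times outside of one set of dimension less than one.** -/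
theorem result (X : Type u) [MeasurableSpace X] (μ : Measure X) [IsProbabilityMeasure μ] [IsSeparable μ]
    (S : ℝ → X → X) (hS : IsFlow μ S) (d : ℕ) :
    ∃ D : Set ℝ, dimH D ≤ bnd d ∧ ∀ a : ℝ, a ≠ 0 → |a| ∉ D → ∀ P, Pol d P → ∀ (b c : ℤ) (f g : X → ℂ),
      Linf μ f → Linf μ g →
        Tendsto (fun N : ℕ => ∫ x, ‖davg S a P b c f g N x - cavg S a P b c f g N x‖ ^ 2 ∂μ) atTop (nhds 0) ∧
        (OneFunction.{u} P → DoubleRecurrence.{u} → ∀ᵐ x ∂μ, ∃ L : ℂ,
          Tendsto (fun N : ℕ => davg S a P b c f g N x) atTop (nhds L) ∧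
          Tendsto (fun N : ℕ => davg S a Polynomial.X b c f g N x) atTop (nhds L)) := by
  obtain ⟨D, hD, h⟩ := pos_times μ hS d
  refine ⟨D, hD, fun a ha0 haD P hP b c f g hf hg => ?_⟩
  rcases lt_or_gt_of_ne ha0 with ha | ha
  · rw [abs_of_neg ha] at haD
    simp only [davg_neg S a, cavg_neg S a]
    exact h (-a) (by linarith) haD P hP (-b) (-c) f g hf hg
  · rw [abs_of_pos ha] at haD
    exact h a ha haD P hP b c f g hf hg

end Pool.Agent.Results.MP_70d78b_an.TimesOfFlows
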